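import Mathlib

/-!
Reduction of the repartition statement for forests to a statement on parent functions.
-/

set_option autoImplicit false

namespace Pool.Agent.H81Z.Graph

open SimpleGraph

/-- rooting a forest -/
theorem exists_root {V : Type} (F : SimpleGraph V) (hF : F.IsAcyclic) :
    ∃ (π : V → V) (dp : V → ℕ), (∀ v, π v ≠ v → dp (π v) + 1 = dp v) ∧
      (∀ v, π v = v → dp v = 0) ∧ (∀ v, π v ≠ v → F.Adj v (π v)) ∧
      (∀ u v, F.Adj u v → π u = v ∨ π v = u) ∧
      (∀ v, ∃ r, F.Reachable r v ∧ dp v = F.dist r v) := by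
  classical
  let r : V → V := fun v => (F.connectedComponentMk v).out
  have hr : ∀ v, F.Reachable (r v) v := fun v =>
    ConnectedComponent.exact (Quot.out_eq (F.connectedComponentMk v))
  have hradj : ∀ u v, F.Adj u v → r u = r v := fun u v h => by
    simp only [r, ConnectedComponent.sound h.reachable]
  have hex : ∀ v, F.dist (r v) v ≠ 0 →
      ∃ w, F.Adj v w ∧ F.dist (r v) w + 1 = F.dist (r v) v := by
    intro v hv
    obtain ⟨p, hp⟩ := (hr v).exists_walk_length_eq_dist
    have hnil : ¬ p.Nil := by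
      rw [Walk.not_nil_iff_lt_length]
      omega
    have hadj := p.adj_penultimate hnil
    refine ⟨p.penultimate, hadj.symm, ?_⟩
    have h1 := dist_le p.dropLast
    have h2 := Walk.length_dropLast_add_one hnil
    rcases hF.dist_eq_dist_add_one_of_adj_of_reachable (r v) hadj.symm (hr v) with h | h
    · omega
    · omega
  have huniq : ∀ v u w, F.Adj v u → F.Adj v w → F.dist (r v) u + 1 = F.dist (r v) v →
      F.dist (r v) w + 1 = F.dist (r v) v → u = w := by
    intro v u w hu hw du dw
    obtain ⟨p, hp⟩ := ((hr v).trans hu.reachable).exists_walk_length_eq_dist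
    obtain ⟨q, hq⟩ := ((hr v).trans hw.reachable).exists_walk_length_eq_dist
    have hp' : (p.concat hu.symm).IsPath :=
      Walk.isPath_of_length_eq_dist _ (by rw [Walk.length_concat]; omega)
    have hq' : (q.concat hw.symm).IsPath :=
      Walk.isPath_of_length_eq_dist _ (by rw [Walk.length_concat]; omega)
    have e : p.concat hu.symm = q.concat hw.symm :=
      Subtype.mk.inj <| hF.subsingleton_path (r v) v |>.elim ⟨_, hp'⟩ ⟨_, hq'⟩
    exact (Walk.concat_inj e).1
  let π : V → V := fun v => if h : F.dist (r v) v ≠ 0 then (hex v h).choose else v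
  have hπ : ∀ v, F.dist (r v) v ≠ 0 →
      F.Adj v (π v) ∧ F.dist (r v) (π v) + 1 = F.dist (r v) v := by
    intro v h
    simp only [π, dif_pos h]
    exact (hex v h).choose_spec
  have hπ0 : ∀ v, π v ≠ v → F.dist (r v) v ≠ 0 := by
    intro v h h0
    apply h
    simp only [π]
    rw [dif_neg (not_not.2 h0)]
  refine ⟨π, fun v => F.dist (r v) v, fun v h => ?_, fun v h => ?_, fun v h => (hπ v (hπ0 v h)).1,
    fun u v h => ?_, fun v => ⟨r v, hr v, rfl⟩⟩
  · obtain ⟨h1, h2⟩ := hπ v (hπ0 v h)
    simp only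
    rw [← hradj _ _ h1]
    exact h2
  · by_contra h0
    exact (hπ v h0).1.ne h.symm
  · have e := hradj u v h
    rcases hF.dist_eq_dist_add_one_of_adj_of_reachable (r u) h (hr u) with h1 | h1
    · left
      obtain ⟨h2, h3⟩ := hπ u (by omega)
      exact huniq u _ _ h2 h h3 h1.symm
    · right
      rw [e] at h1
      obtain ⟨h2, h3⟩ := hπ v (by omega)
      exact huniq v _ _ h2 h.symm h3 h1.symm

/-- the graph of the arcs of a function -/
def fg {V : Type} (o : V → V) : SimpleGraph V := SimpleGraph.fromRel fun u w => o u = w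

lemma fg_adj {V : Type} (o : V → V) (u w : V) :
    (fg o).Adj u w ↔ u ≠ w ∧ (o u = w ∨ o w = u) := by
  simp [fg, fromRel_adj]

lemma iter_le {V : Type} {o : V → V} {h : V → ℕ} (ho : ∀ v, o v ≠ v → h (o v) < h v) (n : ℕ)
    (v : V) : h (o^[n] v) ≤ h v := by
  induction n with
  | zero => exact le_rfl
  | succ n ih =>
    rw [Function.iterate_succ_apply']
    by_cases e : o (o^[n] v) = o^[n] v
    · rw [e]; exact ih
    · exact (ho _ e).le.trans ih

lemma fg_bridge {V : Type} {o : V → V} {h : V → ℕ} (ho : ∀ v, o v ≠ v → h (o v) < h v)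
    {v w : V} (hvw : v ≠ w) (e : o v = w) : (fg o).IsBridge s(v, w) := by
  rw [isBridge_iff]
  rintro ⟨p⟩
  have key : ∀ (x y : V) (_ : ((fg o).deleteEdges {s(v, w)}).Walk x y),
      (∃ n, o^[n] x = v) → ∃ n, o^[n] y = v := by
    intro x y q
    induction q with
    | nil => exact id
    | @cons a b c hab _ ih =>
      rintro ⟨n, hn⟩
      apply ih
      rw [deleteEdges_adj, fg_adj] at hab
      obtain ⟨⟨-, h1 | h1⟩, h2⟩ := hab
      · cases n with
        | zero =>
          exfalso
          apply h2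
          have : a = v := hn
          subst this
          rw [← h1, e]
          rfl
        | succ n =>
          rw [Function.iterate_succ_apply, h1] at hn
          exact ⟨n, hn⟩
      · exact ⟨n + 1, by rw [Function.iterate_succ_apply, h1, hn]⟩
  obtain ⟨n, hn⟩ := key v w p ⟨0, rfl⟩
  have h1 := iter_le ho n w
  have h2 := ho v (by rw [e]; exact hvw.symm)
  rw [hn] at h1
  rw [e] at h2
  omega

lemma fg_acyclic {V : Type} {o : V → V} {h : V → ℕ} (ho : ∀ v, o v ≠ v → h (o v) < h v) :
    (fg o).IsAcyclic := by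
  rw [isAcyclic_iff_forall_adj_isBridge]
  intro v w hvw
  obtain ⟨h1, h2 | h2⟩ := (fg_adj o v w).1 hvw
  · exact fg_bridge ho h1 h2
  · rw [Sym2.eq_swap]
    exact fg_bridge ho h1.symm h2

lemma iter_fix {V : Type} {o : V → V} {h : V → ℕ} (ho : ∀ v, o v ≠ v → h (o v) < h v) (n : ℕ)
    (v : V) (hv : h v ≤ n) : o (o^[n] v) = o^[n] v := by
  induction n generalizing v with
  | zero =>
    by_contra e
    have := ho _ e
    simp only [Function.iterate_zero, id_eq] at this
    omega
  | succ n ih =>
    by_cases e : o v = v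
    · rw [Function.iterate_fixed e, e]
    · rw [Function.iterate_succ_apply]
      have := ho v e
      exact ih _ (by omega)

lemma iter_walk {V : Type} (o : V → V) (n : ℕ) (v : V) :
    ∃ p : (fg o).Walk v (o^[n] v), p.length ≤ n := by
  induction n generalizing v with
  | zero => exact ⟨Walk.nil, le_rfl⟩
  | succ n ih =>
    rw [Function.iterate_succ_apply]
    obtain ⟨p, hp⟩ := ih (o v)
    by_cases e : o v = v
    · revert p
      rw [e]
      intro p hp
      exact ⟨p, by omega⟩
    · exact ⟨Walk.cons ((fg_adj o v (o v)).2 ⟨Ne.symm e, Or.inl rfl⟩) p, by simpa using hp⟩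

lemma fg_dist {V : Type} {o : V → V} {h : V → ℕ} {N : ℕ} (ho : ∀ v, o v ≠ v → h (o v) < h v)
    (hN : ∀ v, h v ≤ N) (u v : V) (huv : (fg o).Reachable u v) : (fg o).dist u v ≤ 2 * N := by
  have step : ∀ a b, o a = b → o^[N] a = o^[N] b := by
    intro a b e
    rw [← e, ← Function.iterate_succ_apply, Function.iterate_succ_apply', iter_fix ho N a (hN a)]
  have key : ∀ (x y : V) (_ : (fg o).Walk x y), o^[N] x = o^[N] y := by
    intro x y q
    induction q with
    | nil => rfl
    | @cons a b c hab _ ih =>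
      rw [← ih]
      obtain ⟨-, h1 | h1⟩ := (fg_adj o a b).1 hab
      · exact step _ _ h1
      · exact (step _ _ h1).symm
  obtain ⟨q⟩ := huv
  have e := key u v q
  obtain ⟨p1, hp1⟩ := iter_walk o N u
  obtain ⟨p2, hp2⟩ := iter_walk o N v
  have := dist_le ((p1.copy rfl e).append p2.reverse)
  rw [Walk.length_append, Walk.length_copy, Walk.length_reverse] at this
  omega

theorem of_core (core : ∀ L : ℕ, ∃ N : ℕ, ∀ (V : Type) [Fintype V] (π b : V → V)
      (dp rk : V → ℕ), (∀ v, dp v ≤ L) → (∀ v, π v ≠ v → dp (π v) + 1 = dp v) →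
      (∀ v, π v = v → dp v = 0) → (∀ v, b v ≠ v → rk (b v) < rk v) →
      ∃ (out : Bool → V → V) (ht : Bool → V → ℕ), (∀ c v, ht c v ≤ N) ∧
        (∀ c v, out c v ≠ v → ht c (out c v) < ht c v ∧
          (out c v = π v ∨ π (out c v) = v ∨ out c v = b v ∨ b (out c v) = v)) ∧
        (∀ v, π v ≠ v → ∃ c, out c v = π v ∨ out c (π v) = v) ∧
        (∀ v, b v ≠ v → ∃ c, out c v = b v ∨ out c (b v) = v)) :
    ∀ d : ℕ, 1 ≤ d → ∃ f : ℕ, ∀ (V : Type) [Fintype V] (G F₁ F₂ : SimpleGraph V),
      F₁.IsAcyclic → F₂.IsAcyclic →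
      (∀ u v : V, F₂.Reachable u v → F₂.dist u v ≤ d) →
      G = F₁ ⊔ F₂ →
      ∃ H₁ H₂ : SimpleGraph V, H₁ ⊔ H₂ = G ∧ Disjoint H₁ H₂ ∧
        H₁.IsAcyclic ∧ H₂.IsAcyclic ∧
        (∀ u v : V, H₁.Reachable u v → H₁.dist u v ≤ f) ∧
        (∀ u v : V, H₂.Reachable u v → H₂.dist u v ≤ f) := by
  classical
  intro d _
  obtain ⟨N, hN⟩ := core d
  refine ⟨2 * N, fun V _ G F₁ F₂ h1 h2 hd hG => ?_⟩
  obtain ⟨π, dp, p1, p2, p3, p4, p5⟩ := exists_root F₂ h2
  obtain ⟨b, rk, b1, -, b3, b4, -⟩ := exists_root F₁ h1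
  obtain ⟨out, ht, o1, o2, o3, o4⟩ := hN V π b dp rk
    (fun v => by
      obtain ⟨r, hr, e⟩ := p5 v
      rw [e]
      exact hd r v hr) p1 p2 (fun v hv => by have := b1 v hv; omega)
  let o' : V → V := fun v => if (fg (out true)).Adj v (out false v) then v else out false v
  have ho' : ∀ v, o' v ≠ v → o' v = out false v ∧ ¬ (fg (out true)).Adj v (out false v) := by
    intro v hv
    by_cases h : (fg (out true)).Adj v (out false v)
    · exact absurd (if_pos h) hv
    · exact ⟨if_neg h, h⟩
  have hdec : ∀ v, o' v ≠ v → ht false (o' v) < ht false v := by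
    intro v hv
    have e := (ho' v hv).1
    rw [e] at hv ⊢
    exact (o2 false v hv).1
  have hsub : ∀ c v, out c v ≠ v → G.Adj v (out c v) := by
    intro c v hv
    rw [hG, sup_adj]
    rcases (o2 c v hv).2 with e | e | e | e
    · right
      rw [e] at hv ⊢
      exact p3 v hv
    · right
      have := p3 (out c v) (by rw [e]; exact hv.symm)
      rw [e] at this
      exact this.symm
    · left
      rw [e] at hv ⊢
      exact b3 v hv
    · left
      have := b3 (out c v) (by rw [e]; exact hv.symm)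
      rw [e] at this
      exact this.symm
  have hcov : ∀ c u w, u ≠ w → out c u = w → (fg (out true) ⊔ fg o').Adj u w := by
    intro c u w huw e
    rw [sup_adj]
    cases c with
    | true => exact Or.inl ((fg_adj _ _ _).2 ⟨huw, Or.inl e⟩)
    | false =>
      by_cases h : (fg (out true)).Adj u w
      · exact Or.inl h
      · refine Or.inr ((fg_adj _ _ _).2 ⟨huw, Or.inl ?_⟩)
        simp only [o', e, if_neg h]
  have hcov2 : ∀ (g : V → V), (∀ v, g v ≠ v → ∃ c, out c v = g v ∨ out c (g v) = v) →
      ∀ u w, u ≠ w → g u = w → (fg (out true) ⊔ fg o').Adj u w := by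
    intro g hg u w huw e
    obtain ⟨c, h | h⟩ := hg u (by rw [e]; exact huw.symm)
    · exact hcov c u w huw (h.trans e)
    · rw [e] at h
      exact (hcov c w u huw.symm h).symm
  refine ⟨fg (out true), fg o', ?_, ?_, fg_acyclic (h := ht true) fun v hv => (o2 true v hv).1,
    fg_acyclic hdec, fg_dist (h := ht true) (fun v hv => (o2 true v hv).1) (o1 true),
    fg_dist hdec (o1 false)⟩
  · apply le_antisymm
    · have a1 : ∀ u w, u ≠ w → out true u = w → G.Adj u w := by
        intro u w huw e
        have := hsub true u (by rw [e]; exact huw.symm)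
        rwa [e] at this
      have a2 : ∀ u w, u ≠ w → o' u = w → G.Adj u w := by
        intro u w huw e
        have e' := (ho' u (by rw [e]; exact huw.symm)).1
        rw [e'] at e
        have := hsub false u (by rw [e]; exact huw.symm)
        rwa [e] at this
      intro u w huw
      rw [sup_adj, fg_adj, fg_adj] at huw
      rcases huw with ⟨h, e | e⟩ | ⟨h, e | e⟩
      · exact a1 u w h e
      · exact (a1 w u h.symm e).symm
      · exact a2 u w h e
      · exact (a2 w u h.symm e).symm
    · intro u w huw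
      rw [hG, sup_adj] at huw
      rcases huw with h | h
      · rcases b4 u w h with e | e
        · exact hcov2 b o4 u w h.ne e
        · exact (hcov2 b o4 w u h.ne.symm e).symm
      · rcases p4 u w h with e | e
        · exact hcov2 π o3 u w h.ne e
        · exact (hcov2 π o3 w u h.ne.symm e).symm
  · rw [disjoint_iff]
    ext u w
    simp only [inf_adj, bot_adj, iff_false, not_and]
    intro a1 a2
    obtain ⟨h, e | e⟩ := (fg_adj _ _ _).1 a2
    · obtain ⟨e1, e2⟩ := ho' u (by rw [e]; exact h.symm)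
      rw [← e1, e] at e2
      exact e2 a1
    · obtain ⟨e1, e2⟩ := ho' w (by rw [e]; exact h)
      rw [← e1, e] at e2
      exact e2 a1.symm

end Pool.Agent.H81Z.Graph
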