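import Mathlib

set_option autoImplicit false

namespace Pool.Agent.H81Z.Iter

theorem iter
    (MP : ∀ d : ℕ, 1 ≤ d → ∃ f : ℕ, ∀ (V : Type) [Fintype V] (G F₁ F₂ : SimpleGraph V),
      F₁.IsAcyclic → F₂.IsAcyclic →
      (∀ u v : V, F₂.Reachable u v → F₂.dist u v ≤ d) →
      G = F₁ ⊔ F₂ →
      ∃ H₁ H₂ : SimpleGraph V, H₁ ⊔ H₂ = G ∧ Disjoint H₁ H₂ ∧
        H₁.IsAcyclic ∧ H₂.IsAcyclic ∧
        (∀ u v : V, H₁.Reachable u v → H₁.dist u v ≤ f) ∧
        (∀ u v : V, H₂.Reachable u v → H₂.dist u v ≤ f))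
    (k : ℕ) : ∀ d : ℕ, ∃ f : ℕ, ∀ (V : Type) [Fintype V] (F : Fin k → SimpleGraph V)
      (A : SimpleGraph V), (∀ i, (F i).IsAcyclic) → A.IsAcyclic →
      (∀ u v, A.Reachable u v → A.dist u v ≤ d) →
      ∃ H : Fin (k + 1) → SimpleGraph V, (∀ i, (H i).IsAcyclic) ∧
        (∀ i u v, (H i).Reachable u v → (H i).dist u v ≤ f) ∧
        (∀ i j u v, (H i).Adj u v → (H j).Adj u v → i = j) ∧
        (∀ u v, (∃ i, (H i).Adj u v) ↔ (A.Adj u v ∨ ∃ i, (F i).Adj u v)) := by
  induction k with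
  | zero =>
    intro d
    refine ⟨d, fun V _ F A _ hA hd => ⟨fun _ => A, fun _ => hA, fun _ => hd, ?_, ?_⟩⟩
    · intro i j _ _ _ _
      exact Subsingleton.elim (α := Fin 1) i j
    · intro u v
      constructor
      · rintro ⟨_, h⟩
        exact Or.inl h
      · rintro (h | ⟨i, _⟩)
        · exact ⟨0, h⟩
        · exact i.elim0
  | succ k ih =>
    intro d
    obtain ⟨f₁, hf₁⟩ := MP (max d 1) (le_max_right _ _)
    obtain ⟨f₂, hf₂⟩ := ih f₁
    refine ⟨max f₁ f₂, fun V _ F A hF hA hd => ?_⟩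
    obtain ⟨H₁, H₂, hU, hD, a₁, a₂, d₁, d₂⟩ := hf₁ V (F 0 ⊔ A) (F 0) A (hF 0) hA
      (fun u v h => (hd u v h).trans (le_max_left _ _)) rfl
    obtain ⟨H, b, e, p, q⟩ := hf₂ V (fun i => F i.succ \ H₁) H₂
      (fun i => (hF i.succ).anti sdiff_le) a₂ d₂
    have hU' : ∀ u v, (H₁.Adj u v ∨ H₂.Adj u v) ↔ ((F 0).Adj u v ∨ A.Adj u v) := by
      intro u v
      rw [← SimpleGraph.sup_adj, hU, SimpleGraph.sup_adj]
    have hD' : ∀ u v, H₁.Adj u v → H₂.Adj u v → False := by
      intro u v h1 h2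
      have h3 : (H₁ ⊓ H₂).Adj u v := ⟨h1, h2⟩
      rw [disjoint_iff.mp hD] at h3
      exact h3
    have hX : ∀ i u v, H₁.Adj u v → (H i).Adj u v → False := by
      intro i u v h1 h2
      rcases (q u v).mp ⟨i, h2⟩ with h | ⟨j, h⟩
      · exact hD' u v h1 h
      · exact h.2 h1
    refine ⟨Fin.cons H₁ H, ?_, ?_, ?_, ?_⟩
    · intro i
      refine Fin.cases ?_ (fun j => ?_) i
      · exact a₁
      · exact b j
    · intro i
      refine Fin.cases ?_ (fun j => ?_) i
      · intro u v h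
        exact (d₁ u v h).trans (le_max_left _ _)
      · intro u v h
        exact (e j u v h).trans (le_max_right _ _)
    · intro i j
      refine Fin.cases ?_ (fun i' => ?_) i
      · refine Fin.cases ?_ (fun j' => ?_) j
        · intro _ _ _ _
          rfl
        · intro u v h1 h2
          exact (hX j' u v h1 h2).elim
      · refine Fin.cases ?_ (fun j' => ?_) j
        · intro u v h1 h2
          exact (hX i' u v h2 h1).elim
        · intro u v h1 h2
          rw [p i' j' u v h1 h2]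
    · intro u v
      constructor
      · rintro ⟨i, h⟩
        revert h
        refine Fin.cases ?_ (fun j => ?_) i
        · intro h
          rcases (hU' u v).mp (Or.inl h) with h' | h'
          · exact Or.inr ⟨0, h'⟩
          · exact Or.inl h'
        · intro h
          rcases (q u v).mp ⟨j, h⟩ with h' | ⟨l, h'⟩
          · rcases (hU' u v).mp (Or.inr h') with h'' | h''
            · exact Or.inr ⟨0, h''⟩
            · exact Or.inl h''
          · exact Or.inr ⟨l.succ, h'.1⟩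
      · intro h
        by_cases h1 : H₁.Adj u v
        · exact ⟨0, h1⟩
        · have key : ∃ i, (H i).Adj u v := by
            apply (q u v).mpr
            rcases h with h | ⟨i, h⟩
            · rcases (hU' u v).mpr (Or.inr h) with h' | h'
              · exact (h1 h').elim
              · exact Or.inl h'
            · revert h
              refine Fin.cases ?_ (fun j => ?_) i
              · intro h
                rcases (hU' u v).mpr (Or.inl h) with h' | h'
                · exact (h1 h').elim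
                · exact Or.inl h'
              · intro h
                exact Or.inr ⟨j, h, h1⟩
          obtain ⟨i, hi⟩ := key
          exact ⟨i.succ, hi⟩

theorem of_parts
    (MP : ∀ d : ℕ, 1 ≤ d → ∃ f : ℕ, ∀ (V : Type) [Fintype V] (G F₁ F₂ : SimpleGraph V),
      F₁.IsAcyclic → F₂.IsAcyclic →
      (∀ u v : V, F₂.Reachable u v → F₂.dist u v ≤ d) →
      G = F₁ ⊔ F₂ →
      ∃ H₁ H₂ : SimpleGraph V, H₁ ⊔ H₂ = G ∧ Disjoint H₁ H₂ ∧
        H₁.IsAcyclic ∧ H₂.IsAcyclic ∧
        (∀ u v : V, H₁.Reachable u v → H₁.dist u v ≤ f) ∧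
        (∀ u v : V, H₂.Reachable u v → H₂.dist u v ≤ f))
    (NDT : ∀ (k : ℕ) (ε : ℝ), 0 < ε → ∃ d : ℕ,
      ∀ (V : Type) [Fintype V] (G : SimpleGraph V) [DecidableRel G.Adj],
        (∀ S : Finset V, 2 ≤ S.card →
          (((S ×ˢ S).filter (fun p => G.Adj p.1 p.2)).card : ℝ)
            ≤ 2 * (((k + 1 : ℕ) : ℝ) - ε) * ((S.card : ℝ) - 1)) →
        ∃ (F : Fin k → SimpleGraph V) (A : SimpleGraph V), (∀ i, (F i).IsAcyclic) ∧
          A.IsAcyclic ∧ (∀ u v, A.Reachable u v → A.dist u v ≤ d) ∧ G = A ⊔ ⨆ i, F i) :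
    ∀ (k : ℕ) (ε : ℝ), 0 < ε → ∃ d : ℕ,
      ∀ (V : Type) [Fintype V] (G : SimpleGraph V) [DecidableRel G.Adj],
        (∀ S : Finset V, 2 ≤ S.card →
          (((S ×ˢ S).filter (fun p => G.Adj p.1 p.2)).card : ℝ)
            ≤ 2 * ((k : ℝ) - ε) * ((S.card : ℝ) - 1)) →
        ∃ c : G.edgeSet → Fin k, ∀ i : Fin k,
          (SimpleGraph.fromEdgeSet {e | ∃ h : e ∈ G.edgeSet, c ⟨e, h⟩ = i}).IsAcyclic ∧
          ∀ u v : V,
            (SimpleGraph.fromEdgeSet {e | ∃ h : e ∈ G.edgeSet, c ⟨e, h⟩ = i}).Reachable u v →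
            (SimpleGraph.fromEdgeSet {e | ∃ h : e ∈ G.edgeSet, c ⟨e, h⟩ = i}).dist u v ≤ d := by
  intro k ε hε
  cases k with
  | zero =>
    refine ⟨0, fun V _ G _ h => ?_⟩
    have hE : ∀ e : G.edgeSet, False := by
      classical
      rintro ⟨e, he⟩
      induction e using Sym2.ind with
      | _ u v =>
        have huv : u ≠ v := G.ne_of_adj he
        have hc : ({u, v} : Finset V).card = 2 := Finset.card_pair huv
        have h2 := h {u, v} hc.ge
        rw [hc] at h2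
        have h0 : (0 : ℝ) ≤ (((({u, v} : Finset V) ×ˢ ({u, v} : Finset V)).filter
          (fun p => G.Adj p.1 p.2)).card : ℝ) := Nat.cast_nonneg _
        have h3 := h0.trans h2
        push_cast at h3
        linarith
    exact ⟨fun e => (hE e).elim, fun i => i.elim0⟩
  | succ k =>
    obtain ⟨d, hd⟩ := NDT k ε hε
    obtain ⟨f, hf⟩ := iter MP k d
    refine ⟨f, fun V _ G _ h => ?_⟩
    obtain ⟨F, A, hF, hA, hdA, hG⟩ := hd V G h
    obtain ⟨H, a, e, p, q⟩ := hf V F A hF hA hdA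
    have q' : ∀ u v, G.Adj u v ↔ ∃ i, (H i).Adj u v := by
      intro u v
      rw [q u v, hG, SimpleGraph.sup_adj, SimpleGraph.iSup_adj]
    have ex : ∀ x : G.edgeSet, ∃ i, x.1 ∈ (H i).edgeSet := by
      rintro ⟨x, hx⟩
      induction x using Sym2.ind with
      | _ u v => exact (q' u v).mp hx
    choose c hc using ex
    refine ⟨c, fun i => ?_⟩
    have hE : SimpleGraph.fromEdgeSet {x | ∃ h : x ∈ G.edgeSet, c ⟨x, h⟩ = i} = H i := by
      ext u v
      rw [SimpleGraph.fromEdgeSet_adj]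
      constructor
      · rintro ⟨⟨h1, h2⟩, _⟩
        have h3 := hc ⟨s(u, v), h1⟩
        rw [h2] at h3
        exact h3
      · intro h1
        have h2 : s(u, v) ∈ G.edgeSet := (q' u v).mpr ⟨i, h1⟩
        exact ⟨⟨h2, p _ _ u v (hc ⟨s(u, v), h2⟩) h1⟩, (H i).ne_of_adj h1⟩
    rw [hE]
    exact ⟨a i, e i⟩

end Pool.Agent.H81Z.Iter
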